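import Pool.Agent.X235.Btte.Main

/-!
# The degree of the complement of the halting set has only countably many minimal covers in the
btte-degrees
-/

set_option autoImplicit false

namespace Pool.Agent.Results.MP_36bef2_lc.CountablyManyMinimalCovers

open Pool.Agent.X235.Btte

/-- the sets of natural numbers with the preorder `≤_btte` -/
def PreSet : Type := Set ℕ

instance : Preorder PreSet where
  le A B := Btte A B
  le_refl A := Btte.refl A
  le_trans _ _ _ h1 h2 := Btte.trans h1 h2

/-- The btte-degrees: the classes of mutual reducibility with the induced partial order. -/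
abbrev Degree : Type := Antisymmetrization PreSet (· ≤ ·)

/-- the btte-degree of a set -/
def deg (A : Set ℕ) : Degree := toAntisymmetrization (α := PreSet) (· ≤ ·) A

/-- The set of all minimal covers of the degree `a`: the degrees `b > a` such that no degree `c`
satisfies `a < c < b`. -/
def minimalCovers (a : Degree) : Set Degree := {b | a < b ∧ ∀ c : Degree, ¬ (a < c ∧ c < b)}

theorem countable {K : Set ℕ} (hK : MComplete K) : (minimalCovers (deg Kᶜ)).Countable := by
  refine ((countable_minCover hK).image deg).mono ?_
  intro b hb
  obtain ⟨C, rfl⟩ : ∃ C : Set ℕ, deg C = b := by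
    induction b using Quotient.inductionOn with
    | _ C => exact ⟨C, rfl⟩
  obtain ⟨h1, h2⟩ := hb
  have h3 : Btte Kᶜ C := h1.le
  have h4 : ¬ Btte C Kᶜ := fun h => absurd h1 (not_lt_of_ge h)
  refine ⟨C, ⟨h3, h4, fun D h5 h6 => ?_⟩, rfl⟩
  by_contra hcon
  push Not at hcon
  refine h2 (deg D) ⟨?_, ?_⟩
  · exact lt_of_le_not_ge h5 hcon.1
  · exact lt_of_le_not_ge h6 hcon.2

/-- The btte-degree of the complement of the halting set (or of any m-complete r.e. set) has only
countably many minimal covers in the btte-degrees; in particular the set of its minimal covers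
does not have the cardinality of the continuum. -/
theorem result :
    MComplete Halt ∧
    (minimalCovers (deg Haltᶜ)).Countable ∧
    Cardinal.mk (minimalCovers (deg Haltᶜ)) < Cardinal.continuum ∧
    ∀ K : Set ℕ, MComplete K → (minimalCovers (deg Kᶜ)).Countable := by
  refine ⟨mcomplete_halt, countable mcomplete_halt, ?_, fun K hK => countable hK⟩
  exact lt_of_le_of_lt (countable mcomplete_halt).le_aleph0 Cardinal.aleph0_lt_continuum

end Pool.Agent.Results.MP_36bef2_lc.CountablyManyMinimalCovers
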